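import Mathlib
import Pool.Agent.R913.Ind.FamNc

/-!
# The noncommutative variational Hodge conjecture for the box product of an admissible subcategory and
any family of abelian varieties which moves in all parts

Let `A → B` be a family of principally polarized abelian varieties, given by the period matrices `Z b`,
let `X → B` be a smooth proper family and `𝒞` a `B`-linear admissible subcategory of its derived
category; the Hodge structures of the rational topological K-theory of the members `𝒞_b` are given by
the Hodge operators `(K b).z` on `ℚ ^ v` (the local systems are trivialized). Suppose that `A` moves
in all parts relative to `𝒞`: through each point of `B` there is a connected complex manifold `U`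
along which the Hodge structure of `𝒞` is constant, such that

* the Hodge group of the family `A` over `U` is semisimple: the products of its Hodge operators and the
  endomorphisms of the family in the centre of the endomorphism algebra have trace zero (this
  is no condition without factors of the fourth type with unbalanced signature);
* no isotypic part of `A` is constant: for no idempotent `e ≠ 0` in the complexification of the
  centre of the endomorphism algebra of the family over `U`, the product of `e` and the Hodge operator
  is constant on `U`.

*Theorem.* For all `n`:

(1) every flat class which is a Hodge class of all `D(A_b ^ n) ⊠ 𝒞_b` is a sum of products of flat
classes which are Hodge classes of all `A_b ^ n` and of all `𝒞_b`;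

(2) if the flat Hodge classes on `A ^ n` are algebraic then the noncommutative variational Hodge
conjecture for `𝒞` implies the one for `D(A ^ n) ⊠ 𝒞`;

(3) the noncommutative variational Hodge conjecture for `D(A ^ n) ⊠ 𝒞` implies the one for `𝒞`.

There is no condition on ranks, on the number of moduli or on the dimension: `A` may have any
endomorphisms, be a product, and have flat Hodge classes which are not generated by divisors; for
instance (not part of the formal statement) (2) applies to the families of abelian fourfolds of Weil
type, whose flat Hodge classes are algebraic by the theorem of Markman. Only the Hodge structure
of `𝒞` has to be constant along `U`, not the one of `X`.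

The proof is in MP_e9c0f3_ag.AnyFamilyTimesVariety; it is applied to the Hodge structures of the
topological K-theory of the members of `𝒞`.
-/

namespace Pool.Agent.Results.MP_298761_ag.AnyFamilyBox

open Pool.Agent.TH131.GHC Pool.Agent.R913.Ind

/-- **Box products with any family of abelian varieties**: if the family `A` of abelian varieties with
the period matrices `Z` moves in all parts relative to the admissible subcategory `𝒞` then the flat
Hodge classes of `D(A ^ n) ⊠ 𝒞` are sums of products of flat Hodge classes, and the noncommutative
variational Hodge conjecture for `D(A ^ n) ⊠ 𝒞` reduces to the one for `𝒞`. -/
theorem result {B : Type} [Nonempty B] {g v : ℕ} (Z : B → Matrix (Fin g) (Fin g) ℂ)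
    (K : B → Coh v) (h : MovesRelativeTo Z K) (n : ℕ) :
    FlatAreProducts (fun b => powPer (Z b) n) K ∧
      NCVariationalReduces (fun b => powPer (Z b) n) K :=
  famNc_main h n

end Pool.Agent.Results.MP_298761_ag.AnyFamilyBox
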