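import Mathlib
import Pool.Agent.R299.NCV.Main

/-!
# The noncommutative variational Hodge conjecture for `D(A) ⊠_B 𝒟`, for abelian schemes `A` which move
# relative to the admissible subcategory `𝒟`

Let `Y → B` be a smooth proper family of complex varieties and `𝒟` a `B`-linear admissible subcategory
of `D_perf(Y)`. After passing to the universal covering of the base, which is denoted by `B`, the local
system of the rational topological K-theory of the fibres of `Y` (both parities; by the Chern character
it is the local system of the rational cohomology) is trivialized: it is `ℚ ^ v`, and `Y b : Coh v` is
the Hodge structure at `b`, given by its Hodge operator `(Y b).z`, the multiplication by `p - q` on the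
classes of type `(p, q)`. The projection functor onto `𝒟` is `B`-linear and defines an idempotent
endomorphism `P` of this local system which commutes with the Hodge operators of all fibres
(`IsProjector`); `K^top(𝒟 / B) ⊗ ℚ` is its image. The Hodge classes of `𝒟_b` are the elements of the
image of `P` that are killed by `(Y b).z`, that is, whose complexification is in `HH_0(𝒟_b)`
(`IsHodgeD`).

Let `A → B` be a fibre product (repetitions allowed) of families `A i` of principally polarized abelian
varieties with period matrices `Z i b`. The `B`-linear admissible subcategory `D(A) ⊠_B 𝒟` of
`D_perf(A ×_B Y)` is generated by the products of objects of `D_perf(A)` and `𝒟`. The topological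
K-theory of its fibres consists of the forms on the homology of `A_b` with values in `K^top(𝒟_b)`; they
are elements of `HAZ W v`, the cohomology of `A_b × Y_b`, with values in the image of `P`
(`IsHodgeAD`).

Suppose that `A` moves relative to `𝒟` (`MovesRelativeTo`): through each point of `B` there is a connected
complex manifold along which the Hodge structure **of `𝒟`** is constant and each `A i` is moving. The
latter means that one of its members is simple and one of its ranks (of `γ - 1` for a monodromy
operator `γ` with `(γ - 1) ^ 2 = 0`, of a derivative of the period matrix, or of the difference of
two period matrices) is odd, or the centre of the endomorphism algebra is totally real and one of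
the ranks is two or there are more than `(g - 1) ^ 2 / 8` moduli.

For instance `𝒟` is the base change of an admissible subcategory of one variety, or a family of
admissible subcategories with constant Hodge structure in varying varieties: if the fibres `Y_b` are
the projective bundles, blow ups or Grassmann bundles over `A'_b`, for another abelian scheme `A'`, then
the Hodge structure of `Y_b` varies, and `A` may even be `A'`; but the Hodge structures of the components
`𝒟_b` of their semiorthogonal decompositions that are equivalent to the derived category of a fixed
variety (the centre of the blow up, for example) are constant. Or `B = U × S`, the `A i` are moving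
over `U` and `𝒟` comes from `S`.

**Theorem.** (1) Each flat class which is a Hodge class of all fibres of `D(A) ⊠_B 𝒟` is a sum of products
`f ⊗ x`, where `f` is flat and on each `A_b` a combination of products of divisor classes, and `x` is
flat and a Hodge class of all `𝒟_b` (`HodgeClassesAreBoxes`).

(2) The noncommutative variational Hodge conjecture for `𝒟` implies the noncommutative variational
Hodge conjecture for `D(A) ⊠_B 𝒟` (`NCVariationalFrom`): if it is true for `𝒟` then each flat class
which is a Hodge class of all fibres of `D(A) ⊠_B 𝒟` (as is each global section which is algebraic at one
point, as is known) and which is algebraic at one point is algebraic at all points.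

Of the classes of objects only two properties are used: the product of a product of divisor classes on
`A_b` (a combination of Chern characters of objects) and the class of an object of `𝒟_b` is in the span
of the classes of objects of `D(A_b) ⊠ 𝒟_b` (`CrossClosed`), and `pr_* (E ⊗ pr^* β)` is an object of `𝒟_b`
for an object `E` of `D(A_b) ⊠ 𝒟_b` and an object `β` of `D(A_b)` (`IntegralClosed`, by the theorem of
Grothendieck, Riemann and Roch).

The theorem for `𝒟 = D_perf(Y)` is the starting result `MP_e9c0f3_ag.TimesAnyVariety` on the
variational Hodge conjecture, whose proof applies to arbitrary families of Hodge structures. The
projector and the condition on the leaves, which concerns the Hodge structure of `𝒟` only, are new.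
-/

namespace Pool.Agent.Results.MP_298761_ag.BoxWithMovingFamilies

open Matrix Pool.Agent.H204R3.CM Pool.Agent.TH131.GHC Pool.Agent.TH504.VY Pool.Agent.R299.NCH
  Pool.Agent.R299.NCV

/-- The noncommutative variational Hodge conjecture for `D(A) ⊠_B 𝒟`, where `A` is a fibre product
`A (c 0) × ... × A (c (n - 1))` of families of abelian varieties which move relative to the
`B`-linear admissible subcategory `𝒟` with the projector `P`. -/
theorem result {ι B : Type} [Nonempty B] {g : ι → ℕ}
    (Z : ∀ i, B → Matrix (Fin (g i)) (Fin (g i)) ℂ) {n : ℕ} (c : Fin n → ι) {v : ℕ}
    (Y : B → Coh v) (P : Matrix (Fin v) (Fin v) ℚ) (hP : ∀ b, IsProjector (Y b) P)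
    (hmov : MovesRelativeTo Z Y P) :
    HodgeClassesAreBoxes (fibreProduct Z c) Y P ∧ NCVariationalFrom (fibreProduct Z c) Y P :=
  main c hP hmov

end Pool.Agent.Results.MP_298761_ag.BoxWithMovingFamilies
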