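import Pool.Agent.R936.Vh.NcFin

/-!
# The noncommutative variational Hodge conjecture: constant factors of CM type

Let `X i`, `i ∈ I`, be a family (finite or infinite) of smooth projective complex varieties of CM type
(for instance of abelian varieties with complex multiplication by subfields of one CM field) and suppose
that the Hodge group of the sum of the Hodge structures `H(X i)` is of dimension at most `R`, and that
the Hodge conjecture holds for the products in which at most `R + 1` different members occur.

*Theorem.* There is one product `Y` of members of the family such that, for every smooth projective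
family `𝒵 → S` of varieties of dimension `n` over a smooth connected base, every `S`-linear admissible
subcategory `𝒞` of `D(𝒵)` and any two points `0`, `s` of `S`: the noncommutative variational Hodge
conjecture holds, for the points `0` and `s`, for all categories `𝒞 ⊠ D(P)`, `P` a product of members of
the family, if and only if it holds, for these points, for `𝒞 ⊠ D(Y ^ n)` (for `n = 0` read
`𝒞 ⊠ D(Y)`). Nothing is assumed about `𝒵`, about `𝒞` or about the other components of `D(𝒵)`.

The family is given by a smooth projective compactification `B` of its total space and the inclusions
`i₀` and `i₁` of the fibres at `0` and at `s`, the category by the Mukai vectors `γ₀` and `γ₁` of the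
kernels of the projections of `D(Z₀)` and `D(Z₁)` to `𝒞_0` and `𝒞_s`. By the theorem of the fixed
part, the flat classes on `𝒵 × P` are the restrictions of the classes `c` on `B × P`, and the global
sections of the local system `K⁰_top(𝒞 ⊠ D(P)/S) ⊗ ℚ` are their images under the projection; their
values at `0` and `s` are `sec i₀ γ₀ c` and `sec i₁ γ₁ c`. That a section is determined by its value at
`0` is the hypothesis `Rigid`; no other property of `𝒵` and `𝒞` is used.

*Proof.* Let `c` be a class on `B × P` whose section is algebraic at `0`. Over a splitting field `L` it
is a sum of classes `z_a ⊗ w_a`, where the `w_a` form a basis of `H(P) ⊗ L` of products of eigenvectors.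
As the value at `0` is a combination of Hodge classes, the differences of the Hodge types of the
conjugates of `w_a` are bounded by `n = dim Z₀` if the section given by `z_a` does not vanish at `0`, so
there is a product `b` of eigenvectors on `Y ^ n` with the same differences (`Y` is given by a lemma of
Dickson type). The contraction with an algebraic class on `P × Y ^ n` shows that the section given by
`z_a ⊗ b` is algebraic at `0`. The class `z_a ⊗ b` is a combination of rational classes with the same
property, so by the hypothesis on `Y ^ n` this section is algebraic at `1`, and the contraction with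
the class `b' ⊗ w_a`, where `b'` is dual to `b`, shows that the section given by `z_a ⊗ w_a` is
algebraic at `1`.
-/

universe u w

namespace Pool.Agent.Results.MP_298761_ag.ConstantFactorsOfCMType

open CategoryTheory H914 Y121.AHS R940 R936.Two R936.Vh.Ncv VarClass Obj WeilCohomology

/-- **The noncommutative variational Hodge conjecture with constant factors of CM type**: for a family
of varieties of CM type with a Hodge group of dimension at most `R`, for which the Hodge conjecture
holds for the products with at most `R + 1` different factors, there is one product `Y` of members such
that, for every family of varieties of dimension `n` and every admissible subcategory `𝒞`, the category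
`𝒞 ⊠ D(Y ^ n)` decides for all categories `𝒞 ⊠ D(P)`, `P` a product of members of the family. -/
theorem result {k : Type u} [Field k] {𝒱 : VarClass k} {ops : CycleOps 𝒱} (T : HodgeTheory ops)
    (hpos : NonnegTypes T) {I : Type w} [Nonempty I] (X : I → 𝒱.Obj)
    (hX : ∀ i, IsCM T (X i)) (R : ℕ) (hR : HgDimLe T X R)
    (h : ∀ i L, (∃ F : Finset I, F.card ≤ R + 1 ∧ ∀ j ∈ i :: L, j ∈ F) →
      AllAlg (IsHodge T (prodOf X i L))) :
    ∃ (i0 : I) (L0 : List I), ∀ (B Z₀ Z₁ : 𝒱.Obj) (i₀ : Z₀ ⟶ B) (i₁ : Z₁ ⟶ B)
      (γ₀ : T.W.H (Z₀.prod Z₀)) (γ₁ : T.W.H (Z₁.prod Z₁)), Rigid i₀ i₁ γ₀ γ₁ →
        (NcVhc i₀ i₁ γ₀ γ₁ (powerOf X i0 L0 Z₀.dim) ↔ ∀ i L, NcVhc i₀ i₁ γ₀ γ₁ (prodOf X i L)) :=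
  ncvhc_main hpos hX hR h

end Pool.Agent.Results.MP_298761_ag.ConstantFactorsOfCMType
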