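import Pool.Agent.R919.VH.Main

/-!
# MP_298761_ag: the noncommutative variational Hodge conjecture for products of an arbitrary family of
categories with all but few families of elliptic curves

Let `C ⊂ D_perf(X)` be an ARBITRARY `S`-linear admissible subcategory, `X → S` smooth and proper, and
`M = V o` the rational topological K-theory `K_0^top(C_s) ⊕ K_1^top(C_s)` of a fibre, with the monodromy
representation `ρ o` of the fundamental group `Γ` of `S`. It respects the Euler form, which is
nondegenerate (in general it is neither symmetric nor alternating; nothing else is used on `M`, in
particular no Hodge structure and no polarization). Let `E_j → S`, for `j` in an arbitrary set of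
indices, be non-isotrivial families of elliptic curves, pairwise non-isogenous (over all finite
coverings of `S`), and `ρ j` the monodromy representation on `H^1`: it has dimension two, determinant
one, no line over the algebraic closure of `ℚ` is stable under a subgroup of finite index, there is an
element no power of which has a double eigenvalue, and for `i ≠ j` no nonzero map from `ρ i` to `ρ j`
commutes with a subgroup of finite index.

The theorem: there is a set `S` of at most `dim M / 2` exceptional indices (all of them `Linked` with
`o`: there is an equivariant homomorphism from a Lie algebra of endomorphisms of `M` onto the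
endomorphisms of trace zero of `V i`) such that for all products
`P = C^{⊠ a} ⊠_S D_perf(E_1^{b_1} ×_S ...)` with `j ∉ S`:

* every global section of the local system `K^top(P/S) ⊗ ℚ` is a sum of (exterior) products of global
  sections of `K^top(C^{⊠ a}/S) ⊗ ℚ` and of flat classes on `E_1^{b_1} ×_S ... `;
* **the noncommutative variational Hodge conjecture for the powers `C^{⊠ a}` implies the noncommutative
  variational Hodge conjecture for `P`.**

`S` does not depend on the algebraic classes. Nothing is assumed on `C`: the base may be a curve, and
the Hodge structures on `K^top(C_s)` and those of the `E_j` may vary together, and `C` may contain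
pieces of the derived categories of the `E_j`. The bound cannot be improved: take for `C` the derived
category of a product of some of the `E_j`.

About K-theory classes of objects only the following is used: exterior products of algebraic classes
are algebraic, the flat classes on the products of the `E_j` are algebraic on all fibres (they are
generated by the classes of divisors), and the coefficients of algebraic classes with respect to
algebraic classes on the powers of the elliptic curves are algebraic (`Contracts`: dual classes exist
by the theorem of Lieberman that homological equivalence is numerical equivalence on abelian varieties,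
and the coefficients are the classes of the direct images of the products).
-/

namespace Pool.Agent.Results.MP_298761_ag.FewExceptionalFamilies

open Matrix Pool.Agent.R919.AH Pool.Agent.R919.VH Pool.Agent.R919.GT

theorem result {Γ J : Type} [Group Γ] [DecidableEq J] {B : J → Type} [∀ j, Fintype (B j)]
    [∀ j, DecidableEq (B j)] (ρ : ∀ j, Γ →* Matrix (B j) (B j) ℚ)
    (o : J) (Q : Matrix (B o) (B o) ℚ) (hQu : IsUnit Q)
    (hQ : ∀ γ, (ρ o γ)ᵀ * Q * ρ o γ = Q)
    (h1 : ∀ j, j ≠ o → IsEll 1 (ρ j))
    (h2 : ∀ i j, i ≠ o → j ≠ o → i ≠ j → NonIso (ρ i) (ρ j)) :
    ∃ S : Finset J, o ∉ S ∧ 2 * S.card ≤ Fintype.card (B o) ∧ (∀ i ∈ S, Linked (ρ o) (ρ i)) ∧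
      (∀ (κ : Type) [Fintype κ] [DecidableEq κ] (f : κ → J), (∀ x, f x ∉ S) →
        flat ρ f ≤ flatIn ρ f {o} * flatIn ρ f ((Finset.univ.image f).erase o)) ∧
      ∀ (T : Type) (Z : T → CycleSystem B), (∀ t, Contracts (Z t) o) →
        FlatAlgebraic ρ Z o S → VhcAt ρ Z o →
          ∀ (κ : Type) [Fintype κ] [DecidableEq κ] (f : κ → J), (∀ x, f x ∉ S) →
            Vhc ρ f Z :=
  main ρ o Q hQu (fun γ => ⟨1, by rw [one_smul, hQ γ]⟩) h1 h2

end Pool.Agent.Results.MP_298761_ag.FewExceptionalFamilies
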